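import Pool.Agent.Helper30_Sph.Stmts

/-!
# Modules ADD, JOI and DIM of squad SPH
-/

namespace Pool.Agent.Sph.H6

open Pool.Agent.Helper30L2 Pool.Agent.Sph

theorem add : AddStmt := by
  intro V _ _ Γ S a ha hv ε i
  have hr : ∀ j, rr ε Γ S a j = 0 := fun j => by
    have h1 := rr_le ε Γ S a j
    rw [hv ε j, mul_zero] at h1
    exact le_antisymm h1 (rr_nonneg _ _ _ _ _)
  have h := vertex_bb ε Γ ha (i - 1)
  rw [hr, hr, hv ε, sub_add_cancel] at h
  linarith

theorem joi (hA : AddStmt) : JoiStmt := by
  intro V _ _ Γ A B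
  induction B using Finset.strongInduction with
  | H B ih =>
    intro hd hj hv ε i
    rcases B.eq_empty_or_nonempty with rfl | ⟨b, hb⟩
    · rw [Finset.union_empty]
      exact hv ε i
    · have hbA : b ∉ A := fun h => Finset.disjoint_left.mp hd h hb
      have hB : A ∪ B = insert b (A ∪ B.erase b) := by
        rw [← Finset.union_insert, Finset.insert_erase hb]
      have hb' : b ∉ A ∪ B.erase b := by
        simp [hbA]
      have hlk : lk Γ (A ∪ B.erase b) b = A ∪ lk Γ (B.erase b) b := by
        ext v
        simp only [mem_lk, Finset.mem_union]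
        constructor
        · rintro ⟨h1 | h1, h2⟩
          · exact Or.inl h1
          · exact Or.inr ⟨h1, h2⟩
        · rintro (h1 | ⟨h1, h2⟩)
          · exact ⟨Or.inl h1, (hj v h1 b hb).symm⟩
          · exact ⟨Or.inr h1, h2⟩
      have hvl : Van Γ (lk Γ (A ∪ B.erase b) b) := by
        rw [hlk]
        refine ih _ ?_ ?_ ?_ hv
        · exact lt_of_le_of_lt (lk_subset _ _) (Finset.erase_ssubset hb)
        · exact Finset.disjoint_of_subset_right
            ((lk_subset _ _).trans (Finset.erase_subset _ _)) hd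
        · intro a ha c hc
          exact hj a ha c (Finset.mem_of_mem_erase (lk_subset _ _ hc))
      rw [hB, hA V Γ _ b hb' hvl]
      refine ih _ (Finset.erase_ssubset hb) ?_ ?_ hv ε i
      · exact Finset.disjoint_of_subset_right (Finset.erase_subset _ _) hd
      · intro a ha c hc
        exact hj a ha c (Finset.mem_of_mem_erase hc)

theorem dim : DimStmt := by
  intro V _ _ Γ S n hn ε i hi
  have h1 : Hh ε Γ (gn Γ) S i = ⊥ := by
    rw [Submodule.eq_bot_iff]
    intro x hx
    have hx1 := (mem_Hh.mp hx).1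
    apply Hil.ext'
    rintro ⟨g, T⟩
    apply hx1.1
    rintro ⟨h1, h2, h3⟩
    have h4 := hn T h1 h2
    omega
  unfold bb
  rw [h1, vdim_bot]

end Pool.Agent.Sph.H6
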