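import Pool.Agent.Helper30_Sph.Stmts

/-!
# Module COR of squad SPH
-/

namespace Pool.Agent.Sph.H6

open Pool.Agent.Sph

/-- A linear order in which a given map to a linear order is monotone. -/
theorem exists_order (V : Type) [Fintype V] (m : ℕ) (c : V → Fin m) :
    ∃ _ : LinearOrder V, ∀ v w : V, v ≤ w → c v ≤ c w := by
  let f : V → Lex (Fin m × Fin (Fintype.card V)) := fun v => toLex (c v, Fintype.equivFin V v)
  have hf : Function.Injective f := by
    intro v w h
    have h1 := congrArg (fun x => (ofLex x).2) h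
    exact (Fintype.equivFin V).injective h1
  refine ⟨LinearOrder.lift' f hf, ?_⟩
  intro v w h
  have h1 : f v ≤ f w := h
  rcases Prod.Lex.le_iff.mp h1 with h2 | h2
  · exact le_of_lt h2
  · exact le_of_eq h2.1

theorem cor (hS : SmiStmt) (hT : TwiStmt) : CorStmt := by
  intro V dV fV Γ S A k c hk hcard hacy hAS hc
  obtain ⟨lo, hlo⟩ := exists_order V (k + 1) c
  obtain rfl : dV = lo.toDecidableEq := Subsingleton.elim _ _
  have h1 : Vke Γ S k := hS V Γ S k hk hcard hacy
  refine hT V Γ A k c (fun v _ w _ h => hlo v w h) hc ?_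
  intro ζ h2 h3 h4
  refine h1 ζ (fun σ τ h => ?_) h3 h4
  obtain ⟨a1, a2, a3⟩ := h2 σ τ h
  exact ⟨a1.trans hAS, a2.trans hAS, a3⟩

end Pool.Agent.Sph.H6
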