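import Pool.Agent.Helper30_Sph.Stmts

/-!
# Module VKT of squad SPH
-/

namespace Pool.Agent.Sph.H6

open Pool.Agent.Sph

theorem alt_min {V : Type} [LinearOrder V] {σ τ : Finset V} (h : Alt σ τ) :
    (σ = ∅ ∧ τ = ∅) ∨ ∃ a ∈ σ, (∀ x ∈ σ, a ≤ x) ∧ ∀ x ∈ τ, a < x := by
  cases h with
  | nil => exact Or.inl ⟨rfl, rfl⟩
  | cons a σ _ hσ hτ _ =>
    refine Or.inr ⟨a, Finset.mem_insert_self _ _, ?_, hτ⟩
    intro x hx
    rcases Finset.mem_insert.mp hx with rfl | hx
    · exact le_rfl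
    · exact (hσ x hx).le

theorem alt_not {V : Type} [LinearOrder V] {σ τ : Finset V} (h : Alt σ τ) (hs : σ.Nonempty) :
    ¬ Alt τ σ := by
  intro h'
  rcases alt_min h with ⟨h1, _⟩ | ⟨a, ha, _, h3⟩
  · rw [h1] at hs
    exact Finset.not_nonempty_empty hs
  rcases alt_min h' with ⟨_, h1⟩ | ⟨b, hb, _, h4⟩
  · rw [h1] at hs
    exact Finset.not_nonempty_empty hs
  exact lt_asymm (h3 b hb) (h4 a ha)

theorem vkt : VktStmt := by
  classical
  intro V _ _ Γ k ⟨f, hf⟩ ζ hsup hsym hcyc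
  -- the correction term sums to zero
  have hzero : ∑ σ, ∑ τ, (∑ v ∈ σ, f (σ.erase v) τ) * ζ σ τ = 0 := by
    rw [Finset.sum_comm]
    refine Finset.sum_eq_zero fun τ _ => ?_
    have h1 : ∀ σ : Finset V, (∑ v ∈ σ, f (σ.erase v) τ) * ζ σ τ =
        ∑ v, if v ∈ σ then f (σ.erase v) τ * ζ σ τ else 0 := by
      intro σ
      rw [Finset.sum_mul, Finset.sum_ite_mem, Finset.univ_inter]
    simp only [h1]
    rw [Finset.sum_comm]
    have h2 : ∀ v : V, (∑ σ : Finset V, if v ∈ σ then f (σ.erase v) τ * ζ σ τ else 0) =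
        ∑ α : Finset V, if v ∉ α then f α τ * ζ (insert v α) τ else 0 := by
      intro v
      rw [← Finset.sum_filter, ← Finset.sum_filter]
      refine Finset.sum_bij' (fun σ _ => σ.erase v) (fun α _ => insert v α) ?_ ?_ ?_ ?_ ?_
      · intro σ hσ
        simp
      · intro α hα
        simp
      · intro σ hσ
        exact Finset.insert_erase (Finset.mem_filter.mp hσ).2
      · intro α hα
        exact Finset.erase_insert (Finset.mem_filter.mp hα).2
      · intro σ hσ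
        rw [Finset.insert_erase (Finset.mem_filter.mp hσ).2]
    simp only [h2]
    rw [Finset.sum_comm]
    refine Finset.sum_eq_zero fun α _ => ?_
    have h3 : (∑ v : V, if v ∉ α then f α τ * ζ (insert v α) τ else 0) =
        f α τ * ∑ v ∈ Finset.univ \ α, ζ (insert v α) τ := by
      rw [Finset.mul_sum, ← Finset.sum_filter]
      refine Finset.sum_congr ?_ fun _ _ => rfl
      ext v
      simp
    rw [h3, hcyc, mul_zero]
  have hpair : ∀ σ τ : Finset V, ((∑ v ∈ σ, f (σ.erase v) τ) + th σ τ) * ζ σ τ +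
      ((∑ v ∈ τ, f (τ.erase v) σ) + th τ σ) * ζ τ σ = 0 := by
    intro σ τ
    by_cases hz : ζ σ τ = 0
    · have hz' : ζ τ σ = 0 := by rw [← hsym]; exact hz
      rw [hz, hz', mul_zero, mul_zero, add_zero]
    obtain ⟨_, _, h3, h4, h5, h6, h7⟩ := hsup σ τ hz
    have hv := hf σ τ h3 h4 h5 h6 h7
    have hne : σ.Nonempty := by
      rw [← Finset.card_pos, h5]; omega
    have hth : th σ τ + th τ σ = if Alt σ τ ∨ Alt τ σ then 1 else 0 := by
      unfold th
      by_cases ha : Alt σ τ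
      · rw [if_pos ha, if_neg (alt_not ha hne), if_pos (Or.inl ha), add_zero]
      · by_cases hb : Alt τ σ
        · rw [if_neg ha, if_pos hb, if_pos (Or.inr hb), zero_add]
        · rw [if_neg ha, if_neg hb, if_neg (by tauto), add_zero]
    rw [← hsym σ τ, ← add_mul]
    have : (∑ v ∈ σ, f (σ.erase v) τ) + th σ τ + ((∑ v ∈ τ, f (τ.erase v) σ) + th τ σ) = 0 := by
      have e : (∑ v ∈ σ, f (σ.erase v) τ) + th σ τ + ((∑ v ∈ τ, f (τ.erase v) σ) + th τ σ) =
        ((∑ v ∈ σ, f (σ.erase v) τ) + (∑ v ∈ τ, f (τ.erase v) σ)) + (th σ τ + th τ σ) := by ring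
      rw [e, hv, hth]
      exact CharTwo.add_self_eq_zero _
    rw [this, zero_mul]
  have htot : ∑ σ : Finset V, ∑ τ : Finset V, ((∑ v ∈ σ, f (σ.erase v) τ) + th σ τ) * ζ σ τ = 0 := by
    rw [← Finset.sum_product']
    refine Finset.sum_involution (fun p _ => (p.2, p.1)) ?_ ?_ ?_ ?_
    · rintro ⟨σ, τ⟩ _
      exact hpair σ τ
    · rintro ⟨σ, τ⟩ _ h1 h2
      apply h1
      have h3 : τ = σ := congrArg Prod.fst h2
      subst h3
      have hz : ζ τ τ = 0 := by
        by_contra hz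
        obtain ⟨_, _, _, _, h5, _, h7⟩ := hsup τ τ hz
        rw [Finset.disjoint_self_iff_empty] at h7
        subst h7
        simp at h5
      change _ * ζ τ τ = 0
      rw [hz, mul_zero]
    · rintro ⟨σ, τ⟩ _
      simp
    · rintro ⟨σ, τ⟩ _
      rfl
  have e : ∑ σ : Finset V, ∑ τ : Finset V, ((∑ v ∈ σ, f (σ.erase v) τ) + th σ τ) * ζ σ τ =
      ∑ σ : Finset V, ∑ τ : Finset V, (∑ v ∈ σ, f (σ.erase v) τ) * ζ σ τ +
        ∑ σ : Finset V, ∑ τ : Finset V, th σ τ * ζ σ τ := by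
    rw [← Finset.sum_add_distrib]
    refine Finset.sum_congr rfl fun σ _ => ?_
    rw [← Finset.sum_add_distrib]
    refine Finset.sum_congr rfl fun τ _ => ?_
    rw [add_mul]
  rw [e, hzero, zero_add] at htot
  exact htot

end Pool.Agent.Sph.H6
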